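import Pool.Agent.Helper74_MTN.Fin
import Pool.Agent.MTN.Stmts2

/-! MTN (few constants), assembly: from the persistence NMZ and the l-adic side over the rings of
integers to the final theorem FewConstantsPoints. -/

set_option autoImplicit false

namespace Pool.Agent.MTN.H74

open Matrix Polynomial NumberField Pool.Agent.MT100 Pool.Agent.MT100G Pool.Agent.MT100A
  Pool.Agent.MT100D Pool.Agent.Helper78_MT Pool.Agent.MTL Pool.Agent.MTN.H53 Pool.Agent.HIK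
  Pool.Agent.MTF

universe u v

theorem pts_eq : Pool.Agent.MTN.Pts = H74.Pts := rfl

/-- the persistence for one translate and rational coefficients -/
theorem nmp (h : NmzStmt) : NmpStmt := by
  intro d _ _ F
  obtain ⟨D, hD⟩ := h d F
  refine ⟨D, fun k m A => ?_⟩
  have hSep : Sep D (fun _ : Unit => D) :=
    ⟨fun _ => le_rfl, fun i j hij => absurd (Subsingleton.elim i j) hij⟩
  obtain ⟨R0, hR0⟩ := hD Unit (fun _ => D) hSep k m A
  refine ⟨R0, fun w hw hwR M0 hM0 c hc g hg => ?_⟩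
  have h1 := hR0 M0 hM0 w hw hwR (fun β α => ((c β α : ℚ) : ℂ))
    (fun β α => by
      have := (IntermediateField.adjoin ℚ {w}).algebraMap_mem (c β α)
      exact this) hc (fun _ => g) (fun _ => hg)
  exact h1

/-- FPW: the final theorem. -/
def FewStmt : Prop :=
  ∀ (d : Type) [Fintype d] [DecidableEq d] (F : Family d) (w : ℕ) (lev : d → ℕ)
    (P : Matrix d d ℂ) (m κ : ℕ) (c : Fin m → ℂ) (s : ℂ), Odd w → IsUnit P.det → s ≠ 0 →
    (∀ i j, IsAlgebraic (IntermediateField.adjoin ℚ (Set.range c)) (s * P i j)) →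
    (∀ p, Fintype.card {a // lev a = p} ≤ κ) →
    m + (if F.N = 0 then 0 else 1) + 1 + κ < Fintype.card d →
    (∀ e A : ℕ, ∃ R0 : ℝ, ∀ x ∈ Pool.Agent.MTN.Pts e A, R0 ≤ ‖x‖ →
      ∀ (E : Matrix d d ℚ) (V : ℕ → Submodule ℂ (d → ℂ)),
      FibreC F lev P w x E V → SpDense (F.Mo P) E →
      (∀ (K : Type u) [Field K] [CharZero K], mtGroup w V K = similitudes E K) ∧
      ∀ (ℓ : ℕ) [Fact ℓ.Prime] (Γ : Type v) [Group Γ] (ρ : Γ →* GL d ℚ_[ℓ]), BigMonodromy E ρ →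
        ∀ (K : Type u) [Field K] [CharZero K] [Algebra ℚ_[ℓ] K],
          monodromy ρ K = mtGroup w V K) ∧
    ∀ ρ : (ℓ : ℕ) → [Fact ℓ.Prime] → GT →* GL d ℚ_[ℓ],
      (∀ (ℓ : ℕ) [Fact ℓ.Prime], Continuous (ρ ℓ)) →
      ∀ (k : Type) [Field k] [NumberField k] (σ : k →+* ℂ),
      ∃ (T : Set (𝓞 k)) (N : ℕ → ℕ), DZ k T ∧ ∀ (ℓ : ℕ) [Fact ℓ.Prime] (a : 𝓞 k),
        a ∉ T → (N ℓ : ℝ) ≤ house (a : k) →
        ∀ (E : Matrix d d ℚ) (V : ℕ → Submodule ℂ (d → ℂ)),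
        FibreC F lev P w (σ a) E V → SpDense (F.Mo P) E → BigMonodromy E (ρ ℓ) →
        ∀ (ψ : k →+* QB) (ρa : Stab (ψ a) →* GL d ℚ_[ℓ]), SpecializesAt (ρ ℓ) (ψ a) ρa →
        ∀ (K : Type u) [Field K] [CharZero K] [Algebra ℚ_[ℓ] K],
          monodromy ρa K = mtGroup w V K

theorem few (hNmz : NmzStmt) (hPth : PthStmt) (hPid : PidStmt) (hSml : SmlStmt)
    (hDzc : DzcStmt) (hBox : BoxStmt) (hFin : HIK.FinStmt.{u}) : FewStmt.{u, v} := by
  intro d _ _ F w lev P m κ c s hw hP hs hc hκ hlt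
  have hcard : 2 < Fintype.card d := MTF.H20.two_lt_card lev hκ hlt
  have h1 := fin.{u, v} (nmp hNmz) d F w lev P m κ c s hw hP hs hc hκ hlt
  have h1' := fin.{u, 0} (nmp hNmz) d F w lev P m κ c s hw hP hs hc hκ hlt
  refine ⟨?_, ?_⟩
  · intro e A
    obtain ⟨R0, hR0⟩ := h1 e A
    exact ⟨R0, fun x hx hxR E V hV hD => hR0 x hx hxR E V hV.1 hV.2.2 hD⟩
  · intro ρ hρ k _ _ σ
    -- the points of `Pts`
    obtain ⟨R0, hR0⟩ := h1' (Module.finrank ℚ k) (2 * Module.finrank ℚ k + 2)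
    obtain ⟨H0, hH0⟩ := hPth k σ
    obtain ⟨hsub, huni, hfin, -⟩ := hDzc k
    obtain ⟨H1, hH1⟩ : ∃ H1 : ℕ, max (max H0 1) (max R0 0 ^ 2) ≤ H1 := exists_nat_ge _
    have hS1 : DZ k {a : 𝓞 k | ‖σ (a : k)‖ < house (a : k) ^ (1 / 2 : ℝ)} :=
      hSml k σ (1 / 2) (by norm_num) (by norm_num)
    obtain ⟨-, hB⟩ := hBox k
    have hS2 : DZ k {a : 𝓞 k | house (a : k) ≤ H1} := by
      obtain ⟨C, hC⟩ := hBox k
      exact hfin _ (hC H1).1
    -- the sets for the primes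
    have hS3 : ∀ ℓ : ℕ, ∃ S : Set (𝓞 k), DZ k S ∧ ∀ [Fact ℓ.Prime], ∀ a ∉ S,
        ∀ (ψ : k →+* QB) (ρa : Stab (ψ a) →* GL d ℚ_[ℓ]), SpecializesAt (ρ ℓ) (ψ a) ρa →
          ∀ (K : Type u) [Field K] [Algebra ℚ_[ℓ] K], monodromy ρa K = monodromy (ρ ℓ) K := by
      intro ℓ
      by_cases hℓ : ℓ.Prime
      · have : Fact ℓ.Prime := ⟨hℓ⟩
        obtain ⟨S, hS, h2⟩ := hFin k d ℓ (ρ ℓ) (hρ ℓ)
        exact ⟨S, hS, fun a ha ψ ρa h => h2 a ha ψ ρa h⟩
      · refine ⟨∅, hfin _ Set.finite_empty, ?_⟩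
        intro h
        exact absurd h.out hℓ
    choose S hS hS' using hS3
    obtain ⟨T, N, hT, hTN⟩ := hPid k S hS
    refine ⟨T ∪ ({a : 𝓞 k | ‖σ (a : k)‖ < house (a : k) ^ (1 / 2 : ℝ)} ∪
      {a : 𝓞 k | house (a : k) ≤ H1}), N, ?_, ?_⟩
    · have h2 := huni (Fin 3) (fun i => match i with
        | 0 => T
        | 1 => {a : 𝓞 k | ‖σ (a : k)‖ < house (a : k) ^ (1 / 2 : ℝ)}
        | 2 => {a : 𝓞 k | house (a : k) ≤ H1}) (by
          intro i
          match i with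
          | 0 => exact hT
          | 1 => exact hS1
          | 2 => exact hS2)
      refine hsub _ _ ?_ h2
      rintro a (ha | ha | ha)
      · exact Set.mem_iUnion.2 ⟨0, ha⟩
      · exact Set.mem_iUnion.2 ⟨1, ha⟩
      · exact Set.mem_iUnion.2 ⟨2, ha⟩
    · intro ℓ _ a ha hN E V hV hD hρE ψ ρa hsp K _ _ _
      have ha1 : a ∉ T := fun h => ha (Or.inl h)
      have ha2 : house (a : k) ^ (1 / 2 : ℝ) ≤ ‖σ (a : k)‖ := by
        by_contra h
        exact ha (Or.inr (Or.inl (not_le.1 h)))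
      have ha3 : (H1 : ℝ) < house (a : k) := by
        by_contra h
        exact ha (Or.inr (Or.inr (not_lt.1 h)))
      have hmx : max (max H0 1) (max R0 0 ^ 2) < house (a : k) := lt_of_le_of_lt hH1 ha3
      have h3 : H0 ≤ house (a : k) := ((le_max_left _ _).trans (le_max_left _ _)).trans hmx.le
      have h4 : max R0 0 ^ 2 ≤ house (a : k) := (le_max_right _ _).trans hmx.le
      have h5 : R0 ≤ ‖σ (a : k)‖ := by
        refine le_trans ?_ ha2
        refine (le_max_left R0 0).trans ?_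
        rw [← Real.sqrt_eq_rpow]
        exact Real.le_sqrt_of_sq_le h4
      have hx := hH0 a h3 ha2
      obtain ⟨hMT, -⟩ := hR0 (σ (a : k)) hx h5 E V hV.1 hV.2.2 hD
      have hsym : Eᵀ = -E := by
        rw [hV.1.symm, hw.neg_one_pow, neg_smul, one_smul]
      have h6 := hS' ℓ a (fun h => ha1 (hTN ℓ a h hN)) ψ ρa hsp K
      rw [h6, hMT K]
      exact MT100G.H97.lad'.{u, 0} d E ℚ_[ℓ] GT (ρ ℓ) hsym hV.1.nondeg hcard hρE K

end Pool.Agent.MTN.H74
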