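import Pool.Agent.Helper97_MTD.Bas

/-! MTN: algebraic points of bounded degree and size polynomial in the absolute value; the value of the
fundamental matrix at complex points near infinity. -/

set_option autoImplicit false

namespace Pool.Agent.MTN.H74

open Matrix Polynomial Pool.Agent.MT100 Pool.Agent.MT100G Pool.Agent.MT100G.H43 Pool.Agent.MT100D

/-- The algebraic numbers `w` which are zeros of integral polynomials of degree at most `m` with
coefficients of absolute value at most `‖w‖ ^ A`. -/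
def Pts (m A : ℕ) : Set ℂ :=
  {w | ∃ f : ℤ[X], f ≠ 0 ∧ f.natDegree ≤ m ∧ (∀ i, |(f.coeff i : ℝ)| ≤ ‖w‖ ^ A) ∧
    Polynomial.aeval w f = 0}

/-- the coefficients of a translated polynomial -/
theorem shift_bound (m D : ℕ) : ∃ C : ℝ, 0 < C ∧ ∀ (f : ℤ[X]) (b : ℝ), f.natDegree ≤ m →
    (∀ i, |(f.coeff i : ℝ)| ≤ b) →
    ∀ i, |(((f.comp (X - Polynomial.C (D : ℤ))).coeff i : ℤ) : ℝ)| ≤ C * b := by
  classical
  -- the coefficients of the powers
  obtain ⟨B, hB⟩ : ∃ B : ℝ, ∀ j ∈ Finset.range (m + 1), ∀ i ∈ Finset.range (m + 1),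
      |((((X - C (D : ℤ)) ^ j : ℤ[X]).coeff i : ℤ) : ℝ)| ≤ B := by
    refine ⟨∑ j ∈ Finset.range (m + 1), ∑ i ∈ Finset.range (m + 1),
      |((((X - C (D : ℤ)) ^ j : ℤ[X]).coeff i : ℤ) : ℝ)|, fun j hj i hi => ?_⟩
    refine le_trans ?_ (Finset.single_le_sum (f := fun j => ∑ i ∈ Finset.range (m + 1),
      |((((X - C (D : ℤ)) ^ j : ℤ[X]).coeff i : ℤ) : ℝ)|)
      (fun _ _ => Finset.sum_nonneg fun _ _ => abs_nonneg _) hj)
    exact Finset.single_le_sum (f := fun i =>
      |((((X - C (D : ℤ)) ^ j : ℤ[X]).coeff i : ℤ) : ℝ)|) (fun _ _ => abs_nonneg _) hi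
  refine ⟨(m + 1) * (|B| + 1), by positivity, fun f b hf hb i => ?_⟩
  have hb0 : 0 ≤ b := (abs_nonneg _).trans (hb 0)
  have hdeg : (f.comp (X - C (D : ℤ))).natDegree ≤ m := by
    refine Polynomial.natDegree_comp_le.trans ?_
    rw [Polynomial.natDegree_X_sub_C, mul_one]
    exact hf
  by_cases hi : i < m + 1
  · rw [Polynomial.comp, Polynomial.eval₂_eq_sum_range' (n := m + 1) (hn := by omega),
      Polynomial.finsetSum_coeff]
    push_cast
    refine (Finset.abs_sum_le_sum_abs _ _).trans ?_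
    calc ∑ j ∈ Finset.range (m + 1),
          |(((C (f.coeff j) * (X - C (D : ℤ)) ^ j : ℤ[X]).coeff i : ℤ) : ℝ)|
        ≤ ∑ j ∈ Finset.range (m + 1), (|B| + 1) * b := by
          refine Finset.sum_le_sum fun j hj => ?_
          rw [Polynomial.coeff_C_mul, Int.cast_mul, abs_mul, mul_comm]
          refine mul_le_mul ?_ (hb j) (abs_nonneg _) (by positivity)
          exact ((hB j hj i (Finset.mem_range.2 hi)).trans (le_abs_self B)).trans (by linarith)
      _ = (m + 1) * (|B| + 1) * b := by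
          rw [Finset.sum_const, Finset.card_range, nsmul_eq_mul]
          push_cast
          ring
  · rw [Polynomial.coeff_eq_zero_of_natDegree_lt (by omega), Int.cast_zero, abs_zero]
    positivity

/-- translates of large points -/
theorem pts_shift (m A D : ℕ) : ∃ R0 : ℝ, ∀ x ∈ Pts m A, R0 ≤ ‖x‖ → x + D ∈ Pts m (A + 1) := by
  obtain ⟨C, hC, hCb⟩ := shift_bound m D
  refine ⟨max (2 * D) (max 2 (C * 2 ^ (A + 1))), fun x hx hR => ?_⟩
  obtain ⟨f, hf0, hfm, hfb, hfx⟩ := hx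
  have h1 : (2 : ℝ) * D ≤ ‖x‖ := (le_max_left _ _).trans hR
  have h2 : (2 : ℝ) ≤ ‖x‖ := ((le_max_left _ _).trans (le_max_right _ _)).trans hR
  have h3 : C * 2 ^ (A + 1) ≤ ‖x‖ := ((le_max_right _ _).trans (le_max_right _ _)).trans hR
  have h4 : ‖x‖ / 2 ≤ ‖x + D‖ := by
    have h5 : ‖x‖ ≤ ‖x + D‖ + D := by
      calc ‖x‖ = ‖(x + D) - D‖ := by rw [add_sub_cancel_right]
        _ ≤ ‖x + D‖ + ‖(D : ℂ)‖ := norm_sub_le _ _
        _ = ‖x + D‖ + D := by rw [Complex.norm_natCast]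
    linarith
  refine ⟨f.comp (X - Polynomial.C (D : ℤ)), ?_, ?_, ?_, ?_⟩
  · intro h
    apply hf0
    have h5 := congrArg (fun p : ℤ[X] => p.comp (X + Polynomial.C (D : ℤ))) h
    simp only [Polynomial.zero_comp] at h5
    rw [Polynomial.comp_assoc] at h5
    simpa using h5
  · refine Polynomial.natDegree_comp_le.trans ?_
    rw [Polynomial.natDegree_X_sub_C, mul_one]
    exact hfm
  · intro i
    refine (hCb f _ hfm hfb i).trans ?_
    calc C * ‖x‖ ^ A = C * 2 ^ A * (‖x‖ / 2) ^ A := by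
          rw [div_pow, mul_assoc, mul_div_cancel₀]
          positivity
      _ ≤ (‖x‖ / 2) * (‖x‖ / 2) ^ A := by
          refine mul_le_mul_of_nonneg_right ?_ (by positivity)
          rw [le_div_iff₀ (by norm_num)]
          calc C * 2 ^ A * 2 = C * 2 ^ (A + 1) := by ring
            _ ≤ ‖x‖ := h3
      _ = (‖x‖ / 2) ^ (A + 1) := by ring
      _ ≤ ‖x + D‖ ^ (A + 1) := pow_le_pow_left₀ (by positivity) h4 _
  · rw [Polynomial.aeval_comp]
    have h5 : Polynomial.aeval (x + (D : ℂ)) (X - Polynomial.C (D : ℤ) : ℤ[X]) = x := by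
      simp
    rw [h5, hfx]

/-- natural numbers are points -/
theorem natCast_mem (n : ℕ) (hn : 1 ≤ n) : (n : ℂ) ∈ Pts 1 1 := by
  refine ⟨X - Polynomial.C (n : ℤ), Polynomial.X_sub_C_ne_zero _, ?_, ?_, ?_⟩
  · exact (Polynomial.natDegree_X_sub_C (n : ℤ)).le
  · intro i
    rw [pow_one, Complex.norm_natCast]
    have h1 : (1 : ℝ) ≤ n := by exact_mod_cast hn
    rcases i with _ | _ | i
    · simp
    · simp [Polynomial.coeff_X, h1]
    · simp [Polynomial.coeff_X]
  · simp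

variable {d : Type} [Fintype d] [DecidableEq d]

/-- the fundamental matrix is invertible near infinity -/
theorem det_Y (F : Family d) : ∃ R0 : ℝ, ∀ w : ℂ, R0 ≤ ‖w‖ → IsUnit (F.Y w).det := by
  classical
  obtain ⟨H, K, N, dl, q, B, hS⟩ := F
  have hH := fun i j => gtype_near (hS.gH i j)
  have hK := fun i j => gtype_near (hS.gK i j)
  choose δH hδH hHx using hH
  choose δK hδK hKx using hK
  obtain ⟨δ, hδ, hδl⟩ : ∃ δ : ℝ, 0 < δ ∧ ∀ i j, δ ≤ δH i j ∧ δ ≤ δK i j := by
    have h1 : ∀ s : Finset (d × d), ∃ δ : ℝ, 0 < δ ∧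
        ∀ p ∈ s, δ ≤ δH p.1 p.2 ∧ δ ≤ δK p.1 p.2 := by
      intro s
      induction s using Finset.induction_on with
      | empty => exact ⟨1, one_pos, fun p hp => absurd hp (Finset.notMem_empty p)⟩
      | insert a s ha ih =>
        obtain ⟨δ, h1, h3⟩ := ih
        refine ⟨min δ (min (δH a.1 a.2) (δK a.1 a.2)), lt_min h1 (lt_min (hδH _ _) (hδK _ _)),
          fun p hp => ?_⟩
        rcases Finset.mem_insert.mp hp with rfl | hp
        · exact ⟨(min_le_right _ _).trans (min_le_left _ _),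
            (min_le_right _ _).trans (min_le_right _ _)⟩
        · exact ⟨(min_le_left _ _).trans (h3 p hp).1, (min_le_left _ _).trans (h3 p hp).2⟩
    obtain ⟨δ, h1, h3⟩ := h1 Finset.univ
    exact ⟨δ, h1, fun i j => h3 (i, j) (Finset.mem_univ _)⟩
  refine ⟨1 / δ + 1, fun w hw => ?_⟩
  have hw1 : 1 / δ < ‖w‖ := by linarith
  have hw0 : 0 < ‖w‖ := lt_trans (by positivity) hw1
  have h1 : ‖w⁻¹‖ < δ := by
    rw [norm_inv, inv_lt_comm₀ hw0 hδ, ← one_div]
    exact hw1
  have hA : ∀ i j, AC (H i j) w⁻¹ := fun i j =>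
    (hHx i j w⁻¹ (lt_of_lt_of_le h1 (hδl i j).1)).1
  have hA' : ∀ i j, AC (K i j) w⁻¹ := fun i j =>
    (hKx i j w⁻¹ (lt_of_lt_of_le h1 (hδl i j).2)).1
  have hHK : H.map (fun f => evC f w⁻¹) * K.map (fun f => evC f w⁻¹) = 1 := by
    rw [← (ac_mmul hA hA').2, hS.inv]
    ext i j
    rw [Matrix.map_apply, Matrix.one_apply, Matrix.one_apply]
    by_cases hij : i = j
    · rw [if_pos hij, if_pos hij]
      have := (ac_int 1 w⁻¹).2
      rwa [Int.cast_one, Int.cast_one] at this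
    · rw [if_neg hij, if_neg hij]
      have := (ac_int 0 w⁻¹).2
      rwa [Int.cast_zero, Int.cast_zero] at this
  change IsUnit (YD H N dl w).det
  unfold YD YH
  rw [Matrix.det_mul, Matrix.det_mul]
  refine IsUnit.mul (IsUnit.mul ?_ ?_) ?_
  · have := congrArg Matrix.det hHK
    rw [Matrix.det_mul, Matrix.det_one] at this
    exact IsUnit.of_mul_eq_one _ this
  · have := congrArg Matrix.det (eN_mul_neg N hS.nil (-Complex.log w))
    rw [Matrix.det_mul, Matrix.det_one] at this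
    exact IsUnit.of_mul_eq_one _ this
  · unfold ed
    rw [Matrix.det_diagonal, isUnit_iff_ne_zero]
    exact Finset.prod_ne_zero_iff.2 fun i _ => Complex.exp_ne_zero _

end Pool.Agent.MTN.H74
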