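import Pool.Agent.Helper77_MTF.Per
import Pool.Agent.Helper53_MTN.MaaP
import Pool.Agent.Helper74_MTN.Pts

/-! MTN (few constants), module PER: persistence of the rational relations of the scaled value at an
algebraic point, infinitesimally. -/

set_option autoImplicit false

namespace Pool.Agent.MTN.H74

open Matrix Polynomial Pool.Agent.MT100 Pool.Agent.MT100G Pool.Agent.MT100A Pool.Agent.MT100D
  Pool.Agent.Helper78_MT Pool.Agent.Helper46_MT Pool.Agent.MTF.H77 Pool.Agent.MTN.H53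

variable {d : Type} [Fintype d] [DecidableEq d]

/-- the relation with coefficients `c` for the matrix `M` -/
noncomputable def rel {k : ℕ} (c : (Unit × Fin k → d) → (Unit × Fin k → d) → ℚ)
    (M : Matrix d d ℂ) : ℂ := ∑ β, ∑ α, (c β α : ℂ) * ∏ s, M (β s) (α s)

/-- Persistence at the point `w` for the translate by `D` and the degree `k` under the matrices
in `G`. -/
def PerAt (F : Family d) (G : Set (Matrix d d ℂ)) (D k : ℕ) (w : ℂ) : Prop :=
  ∀ c : (Unit × Fin k → d) → (Unit × Fin k → d) → ℚ,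
    rel c (F.Y (w - D) * F.R w) = 0 → ∀ g ∈ G, rel c (F.Y (w - D) * g * F.R w) = 0

/-- PER at one point -/
theorem per_point (F : Family d) (G : Set (Matrix d d ℂ)) (D e : ℕ) (w t : ℂ)
    (ht : ∀ R : MvPolynomial (d × d) ℚ,
      MvPolynomial.aeval (fun p : d × d => t * (F.Y (w - D) * F.R w) p.1 p.2) R = 0 →
      ∀ k, MvPolynomial.aeval (fun p : d × d => (F.Y (w - D) * F.R w) p.1 p.2)
        (MvPolynomial.homogeneousComponent k R) = 0)
    (hper : ∀ k < e + 1, PerAt F G D k w)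
    (R : MvPolynomial (d × d) ℚ) (hRe : R.totalDegree ≤ e)
    (hR : MvPolynomial.aeval (fun p : d × d => t * (F.Y (w - D) * F.R w) p.1 p.2) R = 0)
    (x : Matrix d d ℂ) (hx : IsNilpotent x) (hu : ∀ s : ℂ, ue x s ∈ G) :
    ∑ p : d × d, MvPolynomial.aeval (fun p : d × d => t * (F.Y (w - D) * F.R w) p.1 p.2)
      (MvPolynomial.pderiv p R) *
        (t * (F.Y (w - D) * F.R w * ((F.R w)⁻¹ * x * F.R w)) p.1 p.2) = 0 := by
  have hrel : ∀ k < e + 1, ∀ g ∈ G,
      MvPolynomial.aeval (fun p : d × d => (F.Y (w - D) * g * F.R w) p.1 p.2)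
        (MvPolynomial.homogeneousComponent k R) = 0 := by
    intro k hk g hg
    obtain ⟨c, hc⟩ := hom_tensor (MvPolynomial.homogeneousComponent k R) k
      (MvPolynomial.homogeneousComponent_isHomogeneous k R)
    have h1 := ht R hR k
    rw [← hc, ← tensor_sum c (F.Y (w - D) * F.R w)] at h1
    have h2 := hper k hk (fun β α => c (eqv d k (β, α))) h1 g hg
    rw [← hc]
    rw [← tensor_sum c (F.Y (w - D) * g * F.R w)]
    exact h2
  have hall : ∀ g ∈ G,
      MvPolynomial.aeval (fun p : d × d => t * (F.Y (w - D) * g * F.R w) p.1 p.2) R = 0 := by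
    intro g hg
    rw [sum_comp_eq R t (fun p : d × d => (F.Y (w - D) * g * F.R w) p.1 p.2) (e + 1)
      (Nat.lt_succ_of_le hRe)]
    refine Finset.sum_eq_zero fun k hk => ?_
    rw [hrel k (Finset.mem_range.1 hk) g hg, mul_zero]
  have h := core t (F.Y (w - D)) hx (F.R w) R fun s => hall _ (hu s)
  obtain ⟨R', hR1, hR2⟩ := MT100D.H64.r_inv F w
  have hinv : (F.R w)⁻¹ = R' := Matrix.inv_eq_right_inv hR1
  have hx' : F.Y (w - D) * F.R w * ((F.R w)⁻¹ * x * F.R w) = F.Y (w - D) * x * F.R w := by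
    rw [hinv]
    calc F.Y (w - D) * F.R w * (R' * x * F.R w) =
        F.Y (w - D) * (F.R w * R') * x * F.R w := by simp only [Matrix.mul_assoc]
      _ = F.Y (w - D) * x * F.R w := by rw [hR1, Matrix.mul_one]
  rw [hx', ← h]

/-- Persistence at all points of bounded degree and size, for one translate, under a core of the
monodromy group. -/
def NmpStmt : Prop :=
  ∀ (d : Type) [Fintype d] [DecidableEq d] (F : Family d), ∃ D : ℕ, ∀ k m A : ℕ,
    ∃ R0 : ℝ, ∀ w ∈ Pts m A, R0 ≤ ‖w‖ → ∀ M0 : Set (Matrix d d ℂ), Core (F.mo Set.univ) M0 →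
      PerAt F M0 D k w

/-- persistence under the closure -/
theorem perAt_closure {F : Family d} {M0 : Set (Matrix d d ℂ)} {D k : ℕ} {w : ℂ}
    (h : PerAt F M0 D k w) : PerAt F (zclosure ℂ ℂ M0) D k w := by
  intro c hc g hg
  classical
  -- the relation as a polynomial in the entries of `g`
  have hpol : ∃ Φ : MvPolynomial (Unit × d × d) ℂ, ∀ g : Unit → Matrix d d ℂ,
      tev g Φ = rel c (F.Y (w - D) * g () * F.R w) := by
    refine ⟨∑ β, ∑ α, MvPolynomial.C ((c β α : ℚ) : ℂ) * ∏ s : Unit × Fin k, ∑ b, ∑ a,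
      MvPolynomial.C (F.Y (w - D) (β s) a * F.R w b (α s)) * MvPolynomial.X ((), a, b),
      fun g => ?_⟩
    unfold rel tev
    rw [map_sum]
    refine Finset.sum_congr rfl fun β _ => ?_
    rw [map_sum]
    refine Finset.sum_congr rfl fun α _ => ?_
    rw [map_mul, map_prod, MvPolynomial.aeval_C]
    congr 1
    refine Finset.prod_congr rfl fun s _ => ?_
    rw [map_sum, Matrix.mul_apply]
    refine Finset.sum_congr rfl fun b _ => ?_
    rw [map_sum, Matrix.mul_apply, Finset.sum_mul]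
    refine Finset.sum_congr rfl fun a _ => ?_
    rw [map_mul, MvPolynomial.aeval_C, MvPolynomial.aeval_X]
    change F.Y (w - D) (β s) a * F.R w b (α s) * g () a b = _
    ring
  obtain ⟨Φ, hΦ⟩ := hpol
  have h1 := tev_closure (ι := Unit) Φ (fun g' hg' => by
    rw [hΦ]
    exact h c hc _ (hg' ())) (fun _ => g) (fun _ => hg)
  rw [hΦ] at h1
  exact h1

/-- PER at algebraic points -/
def PerPStmt : Prop :=
  ∀ (d : Type) [Fintype d] [DecidableEq d] (F : Family d), ∃ (D : ℕ) (t : ℂ → ℂ),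
    (∀ w, t w ≠ 0) ∧ ∀ m A e : ℕ, ∃ R0 : ℝ, ∀ w ∈ Pts m A, R0 ≤ ‖w‖ →
    ∀ R : MvPolynomial (d × d) ℚ, R.totalDegree ≤ e →
      MvPolynomial.aeval (fun p : d × d => t w * (F.Y (w - D) * F.R w) p.1 p.2) R = 0 →
      ∀ x ∈ H78.nilP (F.mo Set.univ),
        ∑ p : d × d, MvPolynomial.aeval (fun p : d × d => t w * (F.Y (w - D) * F.R w) p.1 p.2)
          (MvPolynomial.pderiv p R) *
            (t w * (F.Y (w - D) * F.R w * ((F.R w)⁻¹ * x * F.R w)) p.1 p.2) = 0

theorem perP (hbas : BasDStmt) (hmoa : MoaDStmt) (hnmp : NmpStmt) : PerPStmt := by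
  intro d _ _ F
  obtain ⟨D, hD⟩ := hnmp d F
  have ht : ∀ w : ℂ, ∃ t : ℂ, t ≠ 0 ∧ ∀ R : MvPolynomial (d × d) ℚ,
      MvPolynomial.aeval (fun p : d × d => t * (F.Y (w - D) * F.R w) p.1 p.2) R = 0 →
      ∀ k, MvPolynomial.aeval (fun p : d × d => (F.Y (w - D) * F.R w) p.1 p.2)
        (MvPolynomial.homogeneousComponent k R) = 0 := fun w =>
    exists_t fun p : d × d => (F.Y (w - D) * F.R w) p.1 p.2
  choose t ht0 ht1 using ht
  have hG := mo_isG hbas hmoa F
  obtain ⟨M0, hM0⟩ := exists_core hG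
  refine ⟨D, t, ht0, fun m A e => ?_⟩
  choose R0 hR0 using hD
  refine ⟨∑ k ∈ Finset.range (e + 1), |R0 k m A|, fun w hw hwR R hRe hR x hx => ?_⟩
  refine per_point F (zclosure ℂ ℂ M0) D e w (t w) (ht1 w) (fun k hk => ?_) R hRe hR x hx.1
    (hM0.uni hG hx.1 hx.2)
  refine perAt_closure (hR0 k m A w hw ?_ M0 hM0)
  refine (le_abs_self _).trans (le_trans ?_ hwR)
  exact Finset.single_le_sum (f := fun k => |R0 k m A|) (fun _ _ => abs_nonneg _)
    (Finset.mem_range.2 hk)

end Pool.Agent.MTN.H74
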