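import Pool.Agent.Helper74_MTN.Cod
import Pool.Agent.Helper20_MTF.Ass

/-! MTN (few constants), modules LVD, MAF, FIN at algebraic points: the Mumford-Tate group at every
large algebraic point of bounded degree and polynomially bounded size. -/

set_option autoImplicit false

namespace Pool.Agent.MTN.H74

open Matrix Pool.Agent.MT100 Pool.Agent.MT100G Pool.Agent.MT100A Pool.Agent.MT100D
  Pool.Agent.Helper78_MT Pool.Agent.Helper46_MT Pool.Agent.MTF Pool.Agent.MTF.H98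

universe u v

/-- the Hodge numbers at large complex points -/
theorem lvd {d : Type} [Fintype d] [DecidableEq d] (F : Family d) (lev : d → ℕ)
    (P : Matrix d d ℂ) (hP : IsUnit P.det) : ∃ R0 : ℝ, ∀ x : ℂ, R0 ≤ ‖x‖ →
    ∀ (w : ℕ) (E : Matrix d d ℚ) (V : ℕ → Submodule ℂ (d → ℂ)), PolHodge w E V →
    F.HasFil lev P x V → ∀ p, Module.finrank ℂ (V p) = Fintype.card {a // lev a = p} := by
  obtain ⟨n0, hn0⟩ := det_Y F
  refine ⟨n0, fun n hn w E V hH hV p => ?_⟩
  have h1 := MTF.H76.finrank_fil F lev P hP n (hn0 n hn) V hV p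
  have h2 := MTF.H76.finrank_fil F lev P hP n (hn0 n hn) V hV (p + 1)
  have hsup : (⨆ p' ∈ Set.Ici p, V p' : Submodule ℂ (d → ℂ)) =
      V p ⊔ (⨆ p' ∈ Set.Ici (p + 1), V p' : Submodule ℂ (d → ℂ)) := by
    apply le_antisymm
    · refine iSup₂_le fun q hq => ?_
      rcases eq_or_lt_of_le (Set.mem_Ici.mp hq) with h | h
      · rw [← h]
        exact le_sup_left
      · exact le_sup_of_le_right (le_iSup₂_of_le q (Set.mem_Ici.mpr h) le_rfl)
    · refine sup_le (le_iSup₂_of_le p (Set.mem_Ici.mpr le_rfl) le_rfl) ?_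
      refine iSup₂_le fun q hq => ?_
      exact le_iSup₂_of_le q (Set.mem_Ici.mpr ((Nat.le_succ p).trans (Set.mem_Ici.mp hq))) le_rfl
  have hdis : Disjoint (V p) (⨆ p' ∈ Set.Ici (p + 1), V p' : Submodule ℂ (d → ℂ)) := by
    refine (hH.indep p).mono_right ?_
    refine iSup₂_le fun q hq => ?_
    have hne : q ≠ p := by
      have := Set.mem_Ici.mp hq
      omega
    exact le_iSup₂_of_le q hne le_rfl
  have hfr := Submodule.finrank_sup_add_finrank_inf_eq (V p)
    (⨆ p' ∈ Set.Ici (p + 1), V p' : Submodule ℂ (d → ℂ))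
  rw [hdis.eq_bot, finrank_bot, ← hsup, h1, h2] at hfr
  have hcard : Fintype.card {a // p ≤ lev a} =
      Fintype.card {a // lev a = p} + Fintype.card {a // p + 1 ≤ lev a} := by
    rw [← Fintype.card_subtype_or_disjoint]
    · refine Fintype.card_congr (Equiv.subtypeEquivRight fun a => ?_)
      omega
    · rw [Pi.disjoint_iff]
      intro a
      rw [Prop.disjoint_iff]
      omega
  omega

/-- MAF: the Hodge side at algebraic points -/
def MafPStmt : Prop :=
  ∀ (d : Type) [Fintype d] [DecidableEq d] (F : Family d) (w : ℕ) (lev : d → ℕ), Odd w →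
    ∀ P : Matrix d d ℂ, IsUnit P.det → ∀ (δ : ℕ) (c : Fin δ → ℂ),
    (∀ i j, IsAlgebraic (IntermediateField.adjoin ℚ (Set.range c)) (P i j)) →
    ∀ κ : ℕ, (∀ p, Fintype.card {a // lev a = p} ≤ κ) →
    δ + (if F.N = 0 then 0 else 1) + 1 + κ < Fintype.card d → ∀ m A : ℕ,
    ∃ R0 : ℝ, ∀ x ∈ Pts m A, R0 ≤ ‖x‖ → ∀ (E : Matrix d d ℚ) (V : ℕ → Submodule ℂ (d → ℂ)),
      PolHodge w E V → F.HasFil lev P x V → SpDense (F.Mo P) E →
      ∀ (K : Type u) [Field K] [CharZero K], mtGroup w V K = similitudes E K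

theorem maf (hcod : CodPStmt) (hcdl : CdlStmt) (hhls : HlsStmt) (hgsp : GspStmt.{u})
    (hspn : SpnStmt) : MafPStmt.{u} := by
  intro d _ _ F w lev hw P hP δ c hc κ hκ hlt m' A
  obtain ⟨m, hm⟩ : ∃ m, m = δ + (if F.N = 0 then 0 else 1) := ⟨_, rfl⟩
  rw [← hm] at hlt
  obtain ⟨n0, h0⟩ := hcod d F w lev hw.pos P hP δ c hc m hm.ge m' A
  obtain ⟨n1, h1⟩ := lvd F lev P hP
  refine ⟨max n0 n1, fun x hx hn E V hV hfil hD K _ _ => ?_⟩
  have hn0 : n0 ≤ ‖x‖ := le_trans (le_max_left _ _) hn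
  have hn1 : n1 ≤ ‖x‖ := le_trans (le_max_right _ _) hn
  have hE := det_ne hV
  have hEs : Eᵀ = -E := by
    have := hV.symm
    rwa [Odd.neg_one_pow hw, neg_one_smul] at this
  refine hgsp d w E V hw hV (fun I hG hI X hX => ?_) K
  have hL := hhls d w E V hw hV I hG hI
  have hfr : ∀ p, Module.finrank ℂ (V p) ≤ κ := by
    intro p
    rw [h1 x hn1 w E V hV hfil p]
    exact hκ p
  have hdep : Dep (E.map (algebraMap ℚ ℂ)) V (Ul I E) m := by
    refine hspn d (E.map (algebraMap ℚ ℂ)) (skew_map hEs) (det_map hE) (Ul I E ⊔ F0 V) m ?_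
    intro Y hY
    refine h0 x hx hn0 E V hV hfil I hG hI Y (fun j => ?_)
    refine ⟨(hY j).2, fun s => hD _ ?_⟩
    exact ue_form (hY j).1 (hY j).2 s
  exact hcdl d w (E.map (algebraMap ℚ ℂ)) V (Ul I E) hL κ m hfr hlt hdep hX

/-- FIN, part (1): at every large algebraic point of degree at most `m'` and size at most `‖x‖ ^ A` the
Mumford-Tate group of the fibre is the group of the similitudes, and the Mumford-Tate conjecture holds
for the representations with big image. -/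
def FinPStmt : Prop :=
  ∀ (d : Type) [Fintype d] [DecidableEq d] (F : Family d) (w : ℕ) (lev : d → ℕ)
    (P : Matrix d d ℂ) (δ κ : ℕ) (c : Fin δ → ℂ) (s : ℂ), Odd w → IsUnit P.det → s ≠ 0 →
    (∀ i j, IsAlgebraic (IntermediateField.adjoin ℚ (Set.range c)) (s * P i j)) →
    (∀ p, Fintype.card {a // lev a = p} ≤ κ) →
    δ + (if F.N = 0 then 0 else 1) + 1 + κ < Fintype.card d → ∀ m A : ℕ,
    ∃ R0 : ℝ, ∀ x ∈ Pts m A, R0 ≤ ‖x‖ → ∀ (E : Matrix d d ℚ) (V : ℕ → Submodule ℂ (d → ℂ)),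
      PolHodge w E V → F.HasFil lev P x V → SpDense (F.Mo P) E →
      (∀ (K : Type u) [Field K] [CharZero K], mtGroup w V K = similitudes E K) ∧
      ∀ (ℓ : ℕ) [Fact ℓ.Prime] (Γ : Type v) [Group Γ] (ρ : Γ →* GL d ℚ_[ℓ]), BigMonodromy E ρ →
        ∀ (K : Type u) [Field K] [CharZero K] [Algebra ℚ_[ℓ] K],
          monodromy ρ K = mtGroup w V K

theorem fin_of (hM : MafPStmt.{u}) : FinPStmt.{u, v} := by
  intro d _ _ F w lev P δ κ c s hw hP hs hc hκ hlt m A
  obtain ⟨R0, hR0⟩ := hM d F w lev hw (s • P) (MTF.H20.isUnit_smul hs hP) δ c hc κ hκ hlt m A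
  have hcard : 2 < Fintype.card d := MTF.H20.two_lt_card lev hκ hlt
  refine ⟨R0, fun x hx hxR E V hV hF hD => ?_⟩
  have hMT : ∀ (K : Type u) [Field K] [CharZero K], mtGroup w V K = similitudes E K := by
    exact hR0 x hx hxR E V hV (MTF.H20.hasFil_smul F hs lev P x V hF)
      (by rw [MTF.H20.Mo_smul F hs hP]; exact hD)
  refine ⟨hMT, ?_⟩
  intro ℓ _ Γ _ ρ hρ K _ _ _
  have hsym : Eᵀ = -E := by
    rw [hV.symm, hw.neg_one_pow, neg_smul, one_smul]
  rw [hMT K]
  exact MT100G.H97.lad'.{u, v} d E ℚ_[ℓ] Γ ρ hsym hV.nondeg hcard hρ K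

/-- the final theorem, part (1), from the persistence -/
theorem fin (h : NmpStmt) : FinPStmt.{u, v} :=
  fin_of (maf (cod (MTF.H20.cor' MTF.H74.trd) (perP MT100D.H97.bas MT100D.H97.moa h) MTF.H32.nip)
    (MTF.H20.cdl' MTF.H74.crd) MTF.H20.hls MTF.H42.gsp.{u} MTF.H90.spn)

end Pool.Agent.MTN.H74
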