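import Mathlib

/-! MTN (few constants at algebraic points), module GER, part 1 (arbitrary index type): the field of germs along an ultrafilter, the subfield of rational germs,
transfer of polynomials. -/

set_option autoImplicit false

namespace Pool.Agent.MTN.H74

open Filter

variable {X : Type}

/-- the field of germs of sequences -/
def GK (φ : Ultrafilter X) : Type := Germ (φ : Filter X) ℂ

noncomputable instance (φ : Ultrafilter X) : Field (GK φ) :=
  inferInstanceAs (Field (Germ (φ : Filter X) ℂ))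

variable (φ : Ultrafilter X)

/-- the germ of a sequence -/
noncomputable def pg : (X → ℂ) →+* GK φ where
  toFun f := (f : Germ (φ : Filter X) ℂ)
  map_one' := rfl
  map_mul' _ _ := rfl
  map_zero' := rfl
  map_add' _ _ := rfl

variable {φ}

theorem pg_surj (x : GK φ) : ∃ f : X → ℂ, pg φ f = x :=
  Germ.inductionOn (x : Germ (φ : Filter X) ℂ) fun f => ⟨f, rfl⟩

theorem pg_eq {f g : X → ℂ} : pg φ f = pg φ g ↔ ∀ᶠ n in (φ : Filter X), f n = g n :=
  Germ.coe_eq

theorem pg_zero {f : X → ℂ} : pg φ f = 0 ↔ ∀ᶠ n in (φ : Filter X), f n = 0 := by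
  rw [← map_zero (pg φ), pg_eq]
  rfl

theorem pg_ne {f : X → ℂ} : pg φ f ≠ 0 ↔ ∀ᶠ n in (φ : Filter X), f n ≠ 0 := by
  rw [Ne, pg_zero, Ultrafilter.eventually_not]

theorem pg_inv (f : X → ℂ) : pg φ (fun n => (f n)⁻¹) = (pg φ f)⁻¹ := rfl

/-- constants -/
noncomputable def cst (φ : Ultrafilter X) : ℂ →+* GK φ := (pg φ).comp (Pi.constRingHom X ℂ)

theorem cst_apply (z : ℂ) : cst φ z = pg φ (fun _ => z) := rfl

instance : CharZero (GK φ) := charZero_of_injective_ringHom (cst φ).injective

/-- the subfield of the germs of rational sequences -/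
noncomputable def kk (φ : Ultrafilter X) : Subfield (GK φ) where
  carrier := {x | ∃ f : X → ℚ, x = pg φ (fun n => (f n : ℂ))}
  zero_mem' := ⟨fun _ => 0, by
    rw [← map_zero (pg φ)]
    congr 1
    funext n
    simp⟩
  one_mem' := ⟨fun _ => 1, by
    rw [← map_one (pg φ)]
    congr 1
    funext n
    simp⟩
  add_mem' := by
    rintro _ _ ⟨f, rfl⟩ ⟨g, rfl⟩
    refine ⟨fun n => f n + g n, ?_⟩
    rw [← map_add]
    congr 1
    funext n
    simp
  mul_mem' := by
    rintro _ _ ⟨f, rfl⟩ ⟨g, rfl⟩
    refine ⟨fun n => f n * g n, ?_⟩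
    rw [← map_mul]
    congr 1
    funext n
    simp
  neg_mem' := by
    rintro _ ⟨f, rfl⟩
    refine ⟨fun n => - f n, ?_⟩
    rw [← map_neg]
    congr 1
    funext n
    simp
  inv_mem' := by
    rintro _ ⟨f, rfl⟩
    refine ⟨fun n => (f n)⁻¹, ?_⟩
    rw [← pg_inv]
    congr 1
    funext n
    simp

theorem mem_kk {x : GK φ} : x ∈ kk φ ↔ ∃ f : X → ℚ, x = pg φ (fun n => (f n : ℂ)) := Iff.rfl

theorem rat_mem (q : ℚ) : cst φ (q : ℂ) ∈ kk φ := ⟨fun _ => q, rfl⟩

section poly
variable {σ : Type}

/-- representation of a polynomial over the field of rational germs by a sequence of rational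
polynomials of bounded degree -/
theorem rep (R : MvPolynomial σ (kk φ)) : ∃ (e : ℕ) (Rn : X → MvPolynomial σ ℚ),
    (∀ n, (Rn n).totalDegree ≤ e) ∧ ∀ y : X → σ → ℂ,
      MvPolynomial.aeval (fun i => pg φ (fun n => y n i)) R =
        pg φ (fun n => MvPolynomial.aeval (y n) (Rn n)) ∧
      ∀ i, MvPolynomial.aeval (fun i => pg φ (fun n => y n i)) (MvPolynomial.pderiv i R) =
        pg φ (fun n => MvPolynomial.aeval (y n) (MvPolynomial.pderiv i (Rn n))) := by
  classical
  induction R using MvPolynomial.induction_on with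
  | C a =>
    obtain ⟨f, hf⟩ := a.2
    refine ⟨0, fun n => MvPolynomial.C (f n), fun n => by rw [MvPolynomial.totalDegree_C], ?_⟩
    intro y
    refine ⟨?_, fun i => ?_⟩
    · rw [MvPolynomial.aeval_C]
      have : (fun n => (MvPolynomial.aeval (y n)) (MvPolynomial.C (f n) : MvPolynomial σ ℚ)) =
          fun n => ((f n : ℚ) : ℂ) := by
        funext n
        rw [MvPolynomial.aeval_C]
        simp
      rw [this, ← hf]
      rfl
    · rw [MvPolynomial.pderiv_C, map_zero, ← map_zero (pg φ)]
      congr 1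
      funext n
      rw [MvPolynomial.pderiv_C, map_zero]
      rfl
  | add p q hp hq =>
    obtain ⟨e1, R1, hd1, h1⟩ := hp
    obtain ⟨e2, R2, hd2, h2⟩ := hq
    refine ⟨max e1 e2, fun n => R1 n + R2 n, fun n =>
      (MvPolynomial.totalDegree_add _ _).trans (max_le_max (hd1 n) (hd2 n)), ?_⟩
    intro y
    refine ⟨?_, fun i => ?_⟩
    · rw [map_add, (h1 y).1, (h2 y).1, ← map_add]
      congr 1
      funext n
      rw [map_add]
      rfl
    · rw [map_add, map_add, (h1 y).2 i, (h2 y).2 i, ← map_add]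
      congr 1
      funext n
      rw [map_add, map_add]
      rfl
  | mul_X p j hp =>
    obtain ⟨e1, R1, hd1, h1⟩ := hp
    refine ⟨e1 + 1, fun n => R1 n * MvPolynomial.X j, fun n => ?_, ?_⟩
    · refine (MvPolynomial.totalDegree_mul _ _).trans ?_
      rw [MvPolynomial.totalDegree_X]
      exact Nat.add_le_add_right (hd1 n) 1
    intro y
    refine ⟨?_, fun i => ?_⟩
    · rw [map_mul, (h1 y).1, MvPolynomial.aeval_X, ← map_mul]
      congr 1
      funext n
      rw [map_mul, MvPolynomial.aeval_X]
      rfl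
    · rw [Derivation.leibniz, map_add, smul_eq_mul, smul_eq_mul, map_mul, map_mul,
        MvPolynomial.pderiv_X, (h1 y).1, (h1 y).2 i, MvPolynomial.aeval_X]
      have e3 : (MvPolynomial.aeval (fun i => pg φ (fun n => y n i)))
          ((Pi.single i (1 : MvPolynomial σ (kk φ)) : σ → MvPolynomial σ (kk φ)) j) =
          pg φ (fun _ => (Pi.single i (1 : ℂ) : σ → ℂ) j) := by
        by_cases hij : j = i
        · subst hij
          rw [Pi.single_eq_same, Pi.single_eq_same, map_one]
          exact (map_one (pg φ)).symm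
        · rw [Pi.single_eq_of_ne hij, Pi.single_eq_of_ne hij, map_zero]
          exact (map_zero (pg φ)).symm
      rw [e3, ← map_mul, ← map_mul, ← map_add]
      congr 1
      funext n
      rw [Derivation.leibniz, map_add, smul_eq_mul, smul_eq_mul, map_mul, map_mul,
        MvPolynomial.pderiv_X, MvPolynomial.aeval_X]
      have e4 : (MvPolynomial.aeval (y n))
          ((Pi.single i (1 : MvPolynomial σ ℚ) : σ → MvPolynomial σ ℚ) j) =
          (Pi.single i (1 : ℂ) : σ → ℂ) j := by
        by_cases hij : j = i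
        · subst hij
          rw [Pi.single_eq_same, Pi.single_eq_same, map_one]
        · rw [Pi.single_eq_of_ne hij, Pi.single_eq_of_ne hij, map_zero]
      rw [e4]
      rfl

/-- transfer of the infinitesimal persistence of relations -/
theorem pers [Fintype σ] {y v : X → σ → ℂ}
    (h : ∀ e : ℕ, ∀ᶠ n in (φ : Filter X), ∀ R : MvPolynomial σ ℚ, R.totalDegree ≤ e →
      MvPolynomial.aeval (y n) R = 0 →
      ∑ i, MvPolynomial.aeval (y n) (MvPolynomial.pderiv i R) * v n i = 0)
    (R : MvPolynomial σ (kk φ)) (hR : MvPolynomial.aeval (fun i => pg φ (fun n => y n i)) R = 0) :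
    ∑ i, MvPolynomial.aeval (fun i => pg φ (fun n => y n i)) (MvPolynomial.pderiv i R) *
      pg φ (fun n => v n i) = 0 := by
  obtain ⟨e, Rn, hd, hy⟩ := rep R
  rw [(hy y).1, pg_zero] at hR
  have e1 : ∑ i, MvPolynomial.aeval (fun i => pg φ (fun n => y n i)) (MvPolynomial.pderiv i R) *
      pg φ (fun n => v n i) =
      pg φ (fun n => ∑ i, MvPolynomial.aeval (y n) (MvPolynomial.pderiv i (Rn n)) * v n i) := by
    have e2 : (fun n => ∑ i, MvPolynomial.aeval (y n) (MvPolynomial.pderiv i (Rn n)) * v n i) =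
        ∑ i, (fun n => MvPolynomial.aeval (y n) (MvPolynomial.pderiv i (Rn n))) *
          (fun n => v n i) := by
      funext n
      rw [Finset.sum_apply]
      rfl
    rw [e2, map_sum]
    refine Finset.sum_congr rfl fun i _ => ?_
    rw [map_mul, (hy y).2 i]
  rw [e1, pg_zero]
  filter_upwards [hR, h e] with n h1 h2
  exact h2 (Rn n) (hd n) h1

end poly

end Pool.Agent.MTN.H74
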