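import Pool.Agent.Helper74_MTN.Ger1
import Pool.Agent.MTF.StmtsB
import Pool.Agent.Helper64_MTD.Ela

/-! MTN, module GER, part 2: the germ of the matrix `P R(w)⁻ᵀ` at algebraic points `w` of bounded degree
is algebraic over the constants. -/

set_option autoImplicit false

namespace Pool.Agent.MTN.H74

open Filter Matrix IntermediateField Pool.Agent.MT100 Pool.Agent.MT100G Pool.Agent.MT100A
  Pool.Agent.MT100D

variable {X : Type} {φ : Ultrafilter X}

/-- the elements of the germ field which are algebraic over the rational germs and `c` -/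
noncomputable abbrev AC {m : ℕ} (c : Fin m → GK φ) :
    IntermediateField (adjoin (kk φ) (Set.range c)) (GK φ) :=
  algebraicClosure (adjoin (kk φ) (Set.range c)) (GK φ)

theorem mem_AC {m : ℕ} {c : Fin m → GK φ} {x : GK φ} :
    x ∈ AC c ↔ IsAlgebraic (adjoin (kk φ) (Set.range c)) x := mem_algebraicClosure_iff

theorem adj_AC {m : ℕ} {c : Fin m → GK φ} {x : GK φ} (hx : x ∈ adjoin (kk φ) (Set.range c)) :
    x ∈ AC c := (AC c).algebraMap_mem ⟨x, hx⟩

theorem kk_AC {m : ℕ} (c : Fin m → GK φ) {x : GK φ} (hx : x ∈ kk φ) : x ∈ AC c :=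
  adj_AC ((adjoin (kk φ) (Set.range c)).algebraMap_mem ⟨x, hx⟩)

theorem cst_mem {δ m : ℕ} (c : Fin δ → ℂ) (c' : Fin m → GK φ)
    (h : ∀ i, cst φ (c i) ∈ Set.range c') {z : ℂ} (hz : z ∈ adjoin ℚ (Set.range c)) :
    cst φ z ∈ adjoin (kk φ) (Set.range c') := by
  induction hz using adjoin_induction with
  | mem x hx =>
    obtain ⟨i, rfl⟩ := hx
    exact subset_adjoin _ _ (h i)
  | algebraMap x =>
    exact (adjoin (kk φ) (Set.range c')).algebraMap_mem ⟨_, rat_mem x⟩
  | add x y _ _ hx hy => rw [map_add]; exact add_mem hx hy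
  | inv x _ hx => rw [map_inv₀]; exact inv_mem hx
  | mul x y _ _ hx hy => rw [map_mul]; exact mul_mem hx hy

theorem cst_alg {δ m : ℕ} (c : Fin δ → ℂ) (c' : Fin m → GK φ)
    (h : ∀ i, cst φ (c i) ∈ Set.range c') {z : ℂ} (hz : IsAlgebraic (adjoin ℚ (Set.range c)) z) :
    cst φ z ∈ AC c' := by
  rw [mem_AC]
  obtain ⟨p, hp, hpz⟩ := hz
  let f : adjoin ℚ (Set.range c) →+* adjoin (kk φ) (Set.range c') :=
    ((cst φ).comp (algebraMap (adjoin ℚ (Set.range c)) ℂ)).codRestrict
      (adjoin (kk φ) (Set.range c')).toSubring (fun x => cst_mem c c' h x.2)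
  have hf : ∀ x, ((f x : adjoin (kk φ) (Set.range c')) : GK φ) = cst φ (x : ℂ) := fun x => rfl
  refine ⟨p.map f, (Polynomial.map_ne_zero_iff f.injective).2 hp, ?_⟩
  rw [Polynomial.aeval_def, Polynomial.eval₂_map]
  have e1 : (algebraMap (adjoin (kk φ) (Set.range c')) (GK φ)).comp f =
      (cst φ).comp (algebraMap (adjoin ℚ (Set.range c)) ℂ) := by
    ext x
    exact hf x
  rw [e1, ← Polynomial.hom_eval₂, ← Polynomial.aeval_def, hpz, map_zero]

/-- the values are algebraic numbers of bounded degree -/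
def BdDeg (φ : Ultrafilter X) (pt : X → ℂ) : Prop :=
  ∃ m : ℕ, ∀ᶠ x in (φ : Filter X), ∃ f : Polynomial ℤ, f ≠ 0 ∧ f.natDegree ≤ m ∧
    Polynomial.aeval (pt x) f = 0

/-- the germ of algebraic numbers of bounded degree is algebraic over the rational germs -/
theorem pt_alg {pt : X → ℂ} (h : BdDeg φ pt) : IsAlgebraic (kk φ) (pg φ pt) := by
  classical
  obtain ⟨m, hm⟩ := h
  have h1 : ∀ x : X, ∃ f : Polynomial ℤ, (∃ f : Polynomial ℤ, f ≠ 0 ∧ f.natDegree ≤ m ∧
      Polynomial.aeval (pt x) f = 0) → f ≠ 0 ∧ f.natDegree ≤ m ∧ Polynomial.aeval (pt x) f = 0 := by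
    intro x
    by_cases hx : ∃ f : Polynomial ℤ, f ≠ 0 ∧ f.natDegree ≤ m ∧ Polynomial.aeval (pt x) f = 0
    · obtain ⟨f, hf⟩ := hx
      exact ⟨f, fun _ => hf⟩
    · exact ⟨0, fun h => absurd h hx⟩
  choose f hf using h1
  have hf' : ∀ᶠ x in (φ : Filter X), f x ≠ 0 ∧ (f x).natDegree ≤ m ∧
      Polynomial.aeval (pt x) (f x) = 0 := by
    filter_upwards [hm] with x hx
    exact hf x hx
  let a : ℕ → kk φ := fun i => ⟨pg φ (fun x => (((f x).coeff i : ℚ) : ℂ)), fun x => ((f x).coeff i : ℚ), rfl⟩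
  let p : Polynomial (kk φ) := ∑ i ∈ Finset.range (m + 1), Polynomial.C (a i) * Polynomial.X ^ i
  have hpc : ∀ i, i < m + 1 → p.coeff i = a i := by
    intro i hi
    simp only [p, Polynomial.finsetSum_coeff, Polynomial.coeff_C_mul, Polynomial.coeff_X_pow]
    rw [Finset.sum_eq_single i]
    · rw [if_pos rfl, mul_one]
    · intro b _ hb
      rw [if_neg (Ne.symm hb), mul_zero]
    · intro h
      exact absurd (Finset.mem_range.2 hi) h
  refine ⟨p, ?_, ?_⟩
  · intro hp
    have h2 : ∀ i ∈ Finset.range (m + 1), ∀ᶠ x in (φ : Filter X), (((f x).coeff i : ℚ) : ℂ) = 0 := by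
      intro i hi
      have h3 := hpc i (Finset.mem_range.1 hi)
      rw [hp, Polynomial.coeff_zero] at h3
      have h4 : pg φ (fun x => (((f x).coeff i : ℚ) : ℂ)) = 0 := by
        have := congrArg (Subtype.val) h3
        exact this.symm
      exact pg_zero.1 h4
    have h5 : ∀ᶠ x in (φ : Filter X), ∀ i ∈ Finset.range (m + 1), (((f x).coeff i : ℚ) : ℂ) = 0 :=
      (Filter.eventually_all_finset _).2 h2
    obtain ⟨x, hx1, hx2, hx3, -⟩ := (h5.and hf').exists
    refine hx2 (Polynomial.ext fun i => ?_)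
    rw [Polynomial.coeff_zero]
    by_cases hi : i < m + 1
    · have := hx1 i (Finset.mem_range.2 hi)
      exact_mod_cast this
    · exact Polynomial.coeff_eq_zero_of_natDegree_lt (by omega)
  · have h2 : Polynomial.aeval (pg φ pt) p = pg φ (fun x => Polynomial.aeval (pt x) (f x)) := by
      have h3 : pg φ (fun x => Polynomial.aeval (pt x) (f x)) =
          pg φ (∑ i ∈ Finset.range (m + 1), (fun x => (((f x).coeff i : ℚ) : ℂ)) * pt ^ i) := by
        rw [pg_eq]
        filter_upwards [hf'] with x hx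
        rw [Polynomial.aeval_eq_sum_range' (n := m + 1) (by omega), Finset.sum_apply]
        refine Finset.sum_congr rfl fun i _ => ?_
        rw [Pi.mul_apply, Pi.pow_apply, zsmul_eq_mul]
        push_cast
        rfl
      rw [h3, map_sum]
      simp only [map_sum, map_mul, map_pow, Polynomial.aeval_C, Polynomial.aeval_X]
      rfl
    rw [h2, pg_zero]
    filter_upwards [hf'] with x hx
    exact hx.2.2

theorem pt_mem {pt : X → ℂ} (h : BdDeg φ pt) {m : ℕ} (c : Fin m → GK φ) : pg φ pt ∈ AC c := by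
  rw [mem_AC]
  exact (pt_alg h).tower_top _

/-- the germ of `w ^ (-q)` -/
theorem exp_mem {pt : X → ℂ} (h : BdDeg φ pt) (h0 : ∀ᶠ x in (φ : Filter X), pt x ≠ 0) {m : ℕ}
    (c : Fin m → GK φ) (q : ℚ) :
    pg φ (fun x => Complex.exp ((q : ℂ) * -Complex.log (pt x))) ∈ AC c := by
  rw [mem_AC]
  have h1 : (pg φ (fun x => Complex.exp ((q : ℂ) * -Complex.log (pt x)))) ^ q.den =
      (pg φ pt) ^ (-q.num) := by
    have h2 : pg φ (fun x => (pt x) ^ (-q.num)) = (pg φ pt) ^ (-q.num) := by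
      rcases Int.eq_nat_or_neg (-q.num) with ⟨k, hk | hk⟩
      · rw [hk, zpow_natCast, ← map_pow]
        congr 1
      · rw [hk, _root_.zpow_neg, zpow_natCast, ← map_pow, ← pg_inv]
        congr 1
        funext x
        rw [_root_.zpow_neg, zpow_natCast]
        rfl
    rw [← h2, ← map_pow, pg_eq]
    filter_upwards [h0] with x hx
    rw [Pi.pow_apply, ← Complex.exp_nat_mul]
    have h3 : (q.den : ℂ) * ((q : ℂ) * -Complex.log (pt x)) = ((-q.num : ℤ) : ℂ) *
        Complex.log (pt x) := by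
      have h4 : (q : ℂ) * (q.den : ℂ) = (q.num : ℂ) := by
        exact_mod_cast congrArg (fun x : ℚ => (x : ℂ)) (Rat.mul_den_eq_num q)
      push_cast
      linear_combination (-Complex.log (pt x)) * h4
    rw [h3, Complex.exp_int_mul, Complex.exp_log hx]
  have h2 : (pg φ (fun x => Complex.exp ((q : ℂ) * -Complex.log (pt x)))) ^ q.den ∈ AC c := by
    rw [h1]
    exact zpow_mem (pt_mem h c) _
  rw [mem_AC] at h2
  exact h2.of_pow q.pos

/-- the germ of an entry of the exponential -/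
theorem eN_mem {pt : X → ℂ} {d : Type} [Fintype d] [DecidableEq d] (N : Matrix d d ℤ) {m : ℕ}
    (c : Fin m → GK φ)
    (h : N ≠ 0 → pg φ (fun x => Complex.log (pt x)) ∈ Set.range c) (i j : d) :
    pg φ (fun x => (eN N (-Complex.log (pt x)) : Matrix d d ℂ) i j) ∈ AC c := by
  have e1 : (fun x => (eN N (-Complex.log (pt x)) : Matrix d d ℂ) i j) =
      ∑ t ∈ Finset.range (Fintype.card d), (fun _ : X => (((t.factorial : ℚ)⁻¹ : ℚ) : ℂ)) *
        ((fun x => -Complex.log (pt x)) ^ t * (fun _ : X => (((N ^ t) i j : ℤ) : ℂ))) := by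
    funext n
    rw [Finset.sum_apply]
    unfold eN
    rw [Matrix.sum_apply]
    refine Finset.sum_congr rfl fun t _ => ?_
    rw [Matrix.smul_apply, Matrix.map_apply, smul_eq_mul, Pi.mul_apply, Pi.mul_apply,
      Pi.pow_apply, Algebra.smul_def, mul_assoc]
    rfl
  rw [e1, map_sum]
  refine sum_mem fun t _ => ?_
  rw [map_mul, map_mul, map_pow]
  have hr : ∀ q : ℚ, pg φ (fun _ => (q : ℂ)) ∈ AC c := fun q => kk_AC c (rat_mem q)
  refine mul_mem (hr _) ?_
  by_cases hN : N = 0
  · rcases Nat.eq_zero_or_pos t with h0 | h0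
    · subst h0
      rw [pow_zero, one_mul]
      have := hr (((N ^ 0) i j : ℤ) : ℚ)
      simpa using this
    · have : (fun _ : X => (((N ^ t) i j : ℤ) : ℂ)) = 0 := by
        funext n
        rw [hN, zero_pow h0.ne']
        simp
      rw [this, map_zero, mul_zero]
      exact zero_mem _
  · refine mul_mem (pow_mem ?_ _) ?_
    · have e2 : (fun x => -Complex.log (pt x)) = -(fun x => Complex.log (pt x)) := rfl
      rw [e2, map_neg]
      exact neg_mem (adj_AC (subset_adjoin _ _ (h hN)))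
    · have := hr (((N ^ t) i j : ℤ) : ℚ)
      simpa using this

/-- UAL: there are `m` germs over which `P R(w)⁻ᵀ` is algebraic -/
theorem ual {pt : X → ℂ} (hd : BdDeg φ pt) (h0 : ∀ᶠ x in (φ : Filter X), pt x ≠ 0)
    {d : Type} [Fintype d] [DecidableEq d] (F : Family d) (P : Matrix d d ℂ) {δ : ℕ}
    (c : Fin δ → ℂ)
    (hP : ∀ i j, IsAlgebraic (adjoin ℚ (Set.range c)) (P i j))
    {m : ℕ} (hm : δ + (if F.N = 0 then 0 else 1) ≤ m) :
    ∃ c' : Fin m → GK φ, ∀ i j, IsAlgebraic (adjoin (kk φ) (Set.range c'))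
      (pg φ (fun x => (P * ((F.R (pt x))⁻¹)ᵀ) i j)) := by
  let c' : Fin m → GK φ := fun j =>
    if h : (j : ℕ) < δ then cst φ (c ⟨j, h⟩) else pg φ (fun x => Complex.log (pt x))
  have h1 : ∀ i, cst φ (c i) ∈ Set.range c' := by
    intro i
    refine ⟨⟨i, by have := i.2; omega⟩, ?_⟩
    simp only [c']
    rw [dif_pos i.2]
  have h2 : F.N ≠ 0 → pg φ (fun x => Complex.log (pt x)) ∈ Set.range c' := by
    intro hN
    rw [if_neg hN] at hm
    refine ⟨⟨δ, by omega⟩, ?_⟩
    simp only [c']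
    rw [dif_neg (lt_irrefl _)]
  refine ⟨c', fun i j => ?_⟩
  rw [← mem_AC]
  have hR : ∀ w : ℂ, (F.R w)⁻¹ =
      eN F.N (-Complex.log w) * ed F.δ (-Complex.log w) := by
    intro w
    have h3 : eN F.N (Complex.log w) * eN F.N (-Complex.log w) = 1 :=
      MT100.H27.eN_mul_neg F.sys.nil _
    have h4 := MT100D.H64.ed_mul_neg F.δ (Complex.log w)
    refine inv_eq_right_inv ?_
    unfold Family.R
    calc ed F.δ (Complex.log w) * eN F.N (Complex.log w) *
          (eN F.N (-Complex.log w) * ed F.δ (-Complex.log w)) =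
          ed F.δ (Complex.log w) * (eN F.N (Complex.log w) * eN F.N (-Complex.log w)) *
          ed F.δ (-Complex.log w) := by simp only [Matrix.mul_assoc]
      _ = 1 := by rw [h3, Matrix.mul_one, h4]
  have e1 : (fun x => (P * ((F.R (pt x))⁻¹)ᵀ) i j) =
      ∑ l, (fun _ : X => P i l) * ((fun x => (eN F.N (-Complex.log (pt x)) :
        Matrix d d ℂ) j l) * (fun x => Complex.exp ((F.δ l : ℂ) * -Complex.log (pt x)))) := by
    funext n
    rw [Finset.sum_apply, Matrix.mul_apply]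
    refine Finset.sum_congr rfl fun l _ => ?_
    rw [Matrix.transpose_apply, hR]
    unfold ed
    rw [Matrix.mul_diagonal]
    rfl
  rw [e1, map_sum]
  refine sum_mem fun l _ => ?_
  rw [map_mul, map_mul]
  exact mul_mem (cst_alg c c' h1 (hP i l))
    (mul_mem (eN_mem F.N c' h2 j l) (exp_mem hd h0 c' (F.δ l)))

end Pool.Agent.MTN.H74
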